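import Pool.Agent.Helper60.TG.Goals

/-!
# Packet TG-COUNT (MP_a41896_nt): the number of independent constants
-/

set_option autoImplicit false

open MvPolynomial

namespace Pool.Agent.Helper75.TG.COUNT

open Pool.Agent.Helper92.TN (ACLA ACLB acl)

noncomputable section

lemma alg_mono {κ L : Type} [Field κ] [Field L] [Algebra κ L] {F G : IntermediateField κ L}
    (h : F ≤ G) {z : L} (hz : IsAlgebraic F z) : IsAlgebraic G z := by
  obtain ⟨p, hp, hz⟩ := hz
  refine ⟨p.map (IntermediateField.inclusion h).toRingHom, ?_, ?_⟩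
  · exact (Polynomial.map_ne_zero_iff (RingHom.injective _)).2 hp
  · rw [Polynomial.aeval_def, Polynomial.eval₂_map]
    exact hz

lemma ind_mono {κ L ι : Type} [Field κ] [Field L] [Algebra κ L] {F G : IntermediateField κ L}
    (h : F ≤ G) {x : ι → L} (hx : AlgebraicIndependent G x) : AlgebraicIndependent F x := by
  let _ : Algebra F G := (IntermediateField.inclusion h).toRingHom.toAlgebra
  have _ : IsScalarTower F G L := IsScalarTower.of_algebraMap_eq (fun _ => rfl)
  exact AlgebraicIndependent.restrictScalars (K := G) (RingHom.injective _) hx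

lemma acl_le (hA : ACLA) {κ L : Type} [Field κ] [Field L] [Algebra κ L] {S T : Set L}
    (h : S ⊆ (acl κ T : Set L)) : acl κ S ≤ acl κ T := by
  have e2 : acl κ ((acl κ T : Set L) ∪ ∅) = acl κ (T ∪ ∅) := (hA κ L T ∅).2.2.2.1
  rw [Set.union_empty, Set.union_empty] at e2
  have e3 : acl κ S ≤ acl κ (acl κ T : Set L) := (hA κ L S (acl κ T : Set L)).2.2.1 h
  rwa [e2] at e3

/-- **COUNT**. -/
theorem t (hA : ACLA) (hB : ACLB) : Pool.Agent.Helper60.TG.COUNT := by
  intro κ L _ _ _ τ _ _ x hx C hC1 hC2 T hT y hyC hy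
  classical
  have hm : ∀ (S : Set L) (z : L), z ∈ acl κ S ↔ IsAlgebraic (IntermediateField.adjoin κ S) z :=
    fun S z => (hA κ L S ∅).1 z
  have hs : ∀ S : Set L, S ⊆ (acl κ S : Set L) := fun S => (hA κ L S ∅).2.1
  have h1 : acl κ (Set.range y) ≤ C := by
    intro z hz
    have hz' := (hm _ _).1 hz
    refine hC1 z (alg_mono ?_ hz')
    rw [IntermediateField.adjoin_le_iff]
    rintro _ ⟨a, rfl⟩
    exact hyC a
  have h2 : AlgebraicIndependent (acl κ (Set.range y)) (fun b : {b : τ // b ∈ T} => x b) :=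
    ind_mono h1 hT
  have h3 : AlgebraicIndependent κ (Sum.elim y (fun b : {b : τ // b ∈ T} => x b)) :=
    ((hB κ L).2.2.1 _ _ y _).2 ⟨hy, h2⟩
  have h4 : ∃ i, x i ∈ acl κ (x '' {j | j ≠ i}) := by
    by_contra hcon
    push Not at hcon
    exact hx (((hB κ L).1 τ x).2 hcon)
  obtain ⟨i, hi⟩ := h4
  set U : Finset L := (Finset.univ.erase i).image x with hU
  have hUc : (U : Set L) = x '' {j | j ≠ i} := by
    rw [hU]
    ext z
    simp
  have h5 : Set.range x ⊆ (acl κ (U : Set L) : Set L) := by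
    rintro _ ⟨j, rfl⟩
    rw [hUc]
    by_cases hj : j = i
    · subst hj
      exact hi
    · exact hs _ ⟨j, hj, rfl⟩
  have h6 : acl κ (Set.range x) ≤ acl κ (U : Set L) := acl_le hA h5
  have h7 := (hB κ L).2.1 _ _ U h3 (by
    rintro (a | b)
    · exact h6 ((hm _ _).2 (hC2 _ (hyC a)))
    · exact h5 ⟨b, rfl⟩)
  have h8 : U.card ≤ Fintype.card τ - 1 := by
    refine Finset.card_image_le.trans ?_
    rw [Finset.card_erase_of_mem (Finset.mem_univ i), Finset.card_univ]
  have h9 : Fintype.card ({a : τ // a ∉ T} ⊕ {b : τ // b ∈ T}) = Fintype.card τ :=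
    Fintype.card_congr ((Equiv.sumComm _ _).trans (Equiv.sumCompl (fun b => b ∈ T)))
  have h10 : 0 < Fintype.card τ := Fintype.card_pos_iff.2 ⟨i⟩
  omega

end

end Pool.Agent.Helper75.TG.COUNT
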